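import Mathlib
import Pool.Agent.W851.Had.Schn

/-! Sums of boundedly many elements of a set with a dense sumset. -/

set_option autoImplicit false
set_option linter.unusedSectionVars false

namespace Pool.Agent.L0h42.BS
open Finset
open Pool.Agent.W851.Had

/-- a popular difference and a popular class -/
lemma popular (A : Finset ℕ) (N D : ℕ) (hD : 1 ≤ D) (hA : ∀ a ∈ A, a ≤ N) :
    ∃ d r : ℕ, (1 ≤ d ∧ d < D) ∧ A.card ≤ N / D + 1 + D * D * (A.filter (fun a => a + d ∈ A ∧ a % d = r)).card ∨ A.card ≤ N / D + 1 := by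
  classical
  by_cases hcon : A.card ≤ N / D + 1
  · exact ⟨0, 0, Or.inr hcon⟩
  obtain ⟨Q, hQ⟩ : ∃ Q : Finset ℕ, Q = A.filter (fun a => ∃ d ∈ Ico 1 D, a + d ∈ A) := ⟨_, rfl⟩
  have h1 : (A \ Q).card ≤ N / D + 1 := by
    have h2 : (A \ Q).card ≤ (range (N / D + 1)).card := by
      apply card_le_card_of_injOn (fun a => a / D)
      · intro a ha
        rw [mem_coe, mem_sdiff] at ha
        rw [mem_coe, mem_range]
        have := Nat.div_le_div_right (c := D) (hA a ha.1)
        change a / D < N / D + 1
        omega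
      · have key : ∀ a b : ℕ, a ∈ A \ Q → b ∈ A \ Q → a / D = b / D → a < b → False := by
          intro a b ha hb hab hlt
          rw [mem_sdiff] at ha hb
          apply ha.2
          rw [hQ, mem_filter]
          refine ⟨ha.1, b - a, ?_, ?_⟩
          · rw [mem_Ico]
            have e1 := Nat.div_add_mod a D
            have e2 := Nat.div_add_mod b D
            have e3 := Nat.mod_lt b (show 0 < D by omega)
            rw [hab] at e1
            omega
          · have : a + (b - a) = b := by omega
            rw [this]; exact hb.1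
        intro a ha b hb hab
        simp only at hab
        rcases Nat.lt_trichotomy a b with h | h | h
        · exact (key a b (mem_coe.1 ha) (mem_coe.1 hb) hab h).elim
        · exact h
        · exact (key b a (mem_coe.1 hb) (mem_coe.1 ha) hab.symm h).elim
    rwa [card_range] at h2
  have h3 : Q ⊆ (Ico 1 D ×ˢ range D).biUnion (fun x => A.filter (fun a => a + x.1 ∈ A ∧ a % x.1 = x.2)) := by
    intro a ha
    rw [hQ, mem_filter] at ha
    obtain ⟨ha1, d, hd, had⟩ := ha
    rw [mem_Ico] at hd
    rw [mem_biUnion]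
    refine ⟨(d, a % d), ?_, ?_⟩
    · rw [mem_product, mem_Ico, mem_range]
      exact ⟨hd, (Nat.mod_lt a (by omega)).trans hd.2⟩
    · rw [mem_filter]
      exact ⟨ha1, had, rfl⟩
  have h4 : Q.card ≤ ∑ x ∈ Ico 1 D ×ˢ range D, (A.filter (fun a => a + x.1 ∈ A ∧ a % x.1 = x.2)).card :=
    (card_le_card h3).trans card_biUnion_le
  have h5 : A.card ≤ (A \ Q).card + Q.card := by
    have := card_sdiff_add_card_eq_card (show Q ⊆ A by rw [hQ]; exact filter_subset _ _)
    omega
  -- the best pair
  have hne : (Ico 1 D ×ˢ range D).Nonempty := by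
    rw [nonempty_iff_ne_empty]
    intro h
    rw [h, sum_empty] at h4
    omega
  obtain ⟨x, hx, hmax⟩ := exists_max_image (Ico 1 D ×ˢ range D) (fun x => (A.filter (fun a => a + x.1 ∈ A ∧ a % x.1 = x.2)).card) hne
  have h6 : ∑ y ∈ Ico 1 D ×ˢ range D, (A.filter (fun a => a + y.1 ∈ A ∧ a % y.1 = y.2)).card ≤
      D * D * (A.filter (fun a => a + x.1 ∈ A ∧ a % x.1 = x.2)).card := by
    refine (sum_le_card_nsmul _ _ _ hmax).trans ?_
    rw [smul_eq_mul, card_product, Nat.card_Ico, card_range]
    exact Nat.mul_le_mul_right _ (Nat.mul_le_mul_right _ (Nat.sub_le _ _))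
  rw [mem_product, mem_Ico] at hx
  exact ⟨x.1, x.2, Or.inl ⟨hx.1, by omega⟩⟩

lemma lift_sum (A : ℕ → Prop) (t d k y : ℕ) (h : SumH (fun i => A (t + d * i)) k y) : SumH A k (k * t + d * y) := by
  obtain ⟨l, h1, h2, h3⟩ := h
  refine ⟨l.map (fun i => t + d * i), by rw [List.length_map, h1], ?_, ?_⟩
  · intro x hx
    rw [List.mem_map] at hx
    obtain ⟨i, hi, rfl⟩ := hx
    exact h2 i hi
  · rw [← h1, ← h3]
    clear h1 h2 h3
    induction l with
    | nil => simp
    | cons a l ih =>
      rw [List.map_cons, List.sum_cons, ih, List.length_cons, List.sum_cons]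
      ring

lemma iter_sum (A : ℕ → Prop) (t d k Y : ℕ) (h : ∀ y ≤ Y, SumH A k (k * t + d * y)) :
    ∀ j y : ℕ, y ≤ j * Y → SumH A (j * k) (j * (k * t) + d * y) := by
  intro j
  induction j with
  | zero =>
    intro y hy
    have : y = 0 := by omega
    subst this
    exact ⟨[], by simp, by simp, by simp⟩
  | succ j ih =>
    intro y hy
    rw [Nat.succ_mul] at hy
    have h1 := ih (y - min y Y) (by rcases le_total y Y with h | h <;> simp [h]; omega)
    have h2 := h (min y Y) (min_le_right _ _)
    have h3 : j * (k * t) + d * (y - min y Y) + (k * t + d * min y Y) = (j + 1) * (k * t) + d * y := by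
      have : y - min y Y + min y Y = y := Nat.sub_add_cancel (min_le_left _ _)
      calc _ = (j + 1) * (k * t) + d * (y - min y Y + min y Y) := by ring
        _ = _ := by rw [this]
    rw [← h3, Nat.succ_mul]
    exact SumH_add A _ _ _ ⟨_, _, h1, h2, rfl⟩

lemma two_sum (A T : ℕ → Prop) (hA : ∀ a, A a → ∃ p q, T p ∧ T q ∧ p + q = a) (k n : ℕ) (h : SumH A k n) : SumH T (2 * k) n := by
  obtain ⟨l, h1, h2, h3⟩ := h
  subst h1 h3
  induction l with
  | nil => exact ⟨[], by simp, by simp, by simp⟩
  | cons a l ih =>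
    obtain ⟨p, q, hp, hq, hpq⟩ := hA a (h2 a List.mem_cons_self)
    obtain ⟨l', g1, g2, g3⟩ := ih (fun y hy => h2 y (List.mem_cons_of_mem _ hy))
    refine ⟨p :: q :: l', by rw [List.length_cons, List.length_cons, g1, List.length_cons]; ring, ?_, ?_⟩
    · intro y hy
      rw [List.mem_cons, List.mem_cons] at hy
      rcases hy with h | h | h
      · rw [h]; exact hp
      · rw [h]; exact hq
      · exact g2 y h
    · rw [List.sum_cons, List.sum_cons, g3, List.sum_cons]
      omega

end Pool.Agent.L0h42.BS
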