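import Mathlib
import Pool.Agent.L0h42.BS.A1
import Pool.Agent.R482.KB.S3

/-! The theorem of Schnirelmann for one scale. -/

set_option autoImplicit false
set_option linter.unusedSectionVars false

namespace Pool.Agent.L0h42.BS
open Finset
open Pool.Agent.W851.Had

/-- If the sums `p + q` of elements of a set `T` of primes contain at least `c N` of the integers up to `N`, then
every integer between `K N` and `K (N + 1)` is a sum of at most `s` elements of `T`. -/
theorem one_scale (c : ℝ) (hc : 0 < c) (hc1 : c ≤ 1) : ∃ s K N0 : ℕ, 1 ≤ K ∧ ∀ N : ℕ, N0 ≤ N → ∀ T : ℕ → Prop, (∀ p, T p → p.Prime) →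
    ∀ S : Finset ℕ, S ⊆ Icc 1 N → (∀ x ∈ S, ∃ p q, T p ∧ T q ∧ p + q = x) → c * N ≤ S.card →
    ∀ n : ℕ, K * N ≤ n → n < K * (N + 1) → ∃ l : List ℕ, l.length ≤ s ∧ (∀ x ∈ l, T x) ∧ l.sum = n := by
  classical
  obtain ⟨D, hD⟩ : ∃ D : ℕ, D = ⌈8 / c⌉₊ := ⟨_, rfl⟩
  have hDc : 8 / c ≤ D := by rw [hD]; exact Nat.le_ceil _
  have hD8 : 8 ≤ (D : ℝ) * c := by rwa [div_le_iff₀ hc] at hDc
  have hD1 : 1 ≤ D := by
    rcases Nat.eq_zero_or_pos D with h | h
    · rw [h] at hD8; norm_num at hD8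
    · exact h
  have hDr : (1 : ℝ) ≤ D := by exact_mod_cast hD1
  obtain ⟨δ, hδ⟩ : ∃ δ : ℝ, δ = c / (4 * D ^ 2) := ⟨_, rfl⟩
  have hδ0 : 0 < δ := by rw [hδ]; positivity
  have hδ1 : δ ≤ 1 := by
    rw [hδ, div_le_one (by positivity)]
    nlinarith
  obtain ⟨h, hh⟩ : ∃ h : ℕ, h = ⌈10 / δ⌉₊ := ⟨_, rfl⟩
  have hhδ : 1 ≤ δ / 10 * h := by
    have h1 : 10 / δ ≤ h := by rw [hh]; exact Nat.le_ceil _
    rw [div_le_iff₀ hδ0] at h1
    linarith
  have hh1 : 1 ≤ h := by
    rcases Nat.eq_zero_or_pos h with h0 | h0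
    · rw [h0] at hhδ; norm_num at hhδ
    · exact h0
  obtain ⟨k, hk⟩ : ∃ k : ℕ, k = h + h := ⟨_, rfl⟩
  have hk1 : 1 ≤ k := by omega
  obtain ⟨K, hK⟩ : ∃ K : ℕ, K = D + (k + 1) * k := ⟨_, rfl⟩
  have hK1 : 1 ≤ K := by omega
  obtain ⟨jm, hjm⟩ : ∃ jm : ℕ, jm = ⌈4 * K / c⌉₊ := ⟨_, rfl⟩
  refine ⟨D + 2 * (jm * k), K, ⌈8 * D / c⌉₊ + 1, hK1, ?_⟩
  intro N hN T hT S hSN hS hcard n hn1 hn2
  have hN1 : 1 ≤ N := by omega
  have hNr : (1 : ℝ) ≤ N := by exact_mod_cast hN1
  have hND : 8 * (D : ℝ) ≤ c * N := by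
    have h1 : 8 * D / c ≤ N := (Nat.le_ceil _).trans (by exact_mod_cast (show ⌈8 * (D : ℝ) / c⌉₊ ≤ N by omega))
    rw [div_le_iff₀ hc] at h1
    linarith
  obtain ⟨A, hA⟩ : ∃ A : Finset ℕ, A = S.filter (fun x : ℕ => c * N / 2 < (x : ℝ)) := ⟨_, rfl⟩
  have hAcard : c * N / 2 ≤ A.card := by
    have h1 : S.card ≤ A.card + (Icc 1 ⌊c * N / 2⌋₊).card := by
      have h2 : S ⊆ A ∪ Icc 1 ⌊c * N / 2⌋₊ := by
        intro x hx
        have hx1 := mem_Icc.1 (hSN hx)
        rw [mem_union, hA, mem_filter, mem_Icc]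
        by_cases h : c * N / 2 < (x : ℝ)
        · exact Or.inl ⟨hx, h⟩
        · right
          exact ⟨hx1.1, Nat.le_floor (not_lt.1 h)⟩
      exact (card_le_card h2).trans (card_union_le _ _)
    rw [Nat.card_Icc, Nat.add_sub_cancel] at h1
    have h2 : (S.card : ℝ) ≤ A.card + (⌊c * N / 2⌋₊ : ℝ) := by exact_mod_cast h1
    have h3 : (⌊c * N / 2⌋₊ : ℝ) ≤ c * N / 2 := Nat.floor_le (by positivity)
    linarith
  have hblock : ((N / D : ℕ) : ℝ) + 1 ≤ c * N / 4 := by
    have h1 : ((N / D : ℕ) : ℝ) ≤ N / D := Nat.cast_div_le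
    have h2 : (N : ℝ) / D ≤ c * N / 8 := by
      rw [div_le_div_iff₀ (by positivity) (by norm_num)]
      nlinarith
    linarith
  have hAN : ∀ a ∈ A, a ≤ N := fun a ha => by
    rw [hA, mem_filter] at ha
    exact (mem_Icc.1 (hSN ha.1)).2
  obtain ⟨d, r, hpop⟩ := popular A N D hD1 hAN
  have hpop2 : (1 ≤ d ∧ d < D) ∧ A.card ≤ N / D + 1 + D * D * (A.filter (fun a => a + d ∈ A ∧ a % d = r)).card := by
    rcases hpop with h1 | h1
    · exact h1
    · exfalso
      have h2 : (A.card : ℝ) ≤ ((N / D : ℕ) : ℝ) + 1 := by exact_mod_cast h1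
      nlinarith
  obtain ⟨⟨hd1, hdD⟩, hcnt⟩ := hpop2
  obtain ⟨F, hF⟩ : ∃ F : Finset ℕ, F = A.filter (fun a => a + d ∈ A ∧ a % d = r) := ⟨_, rfl⟩
  rw [← hF] at hcnt
  obtain ⟨J, hJ⟩ : ∃ J : Finset ℕ, J = F.image (fun a => a / d) := ⟨_, rfl⟩
  have hFmem : ∀ a ∈ F, a ∈ A ∧ a + d ∈ A ∧ a = r + d * (a / d) := by
    intro a ha
    rw [hF, mem_filter] at ha
    refine ⟨ha.1, ha.2.1, ?_⟩
    have := Nat.div_add_mod a d
    rw [ha.2.2] at this
    omega
  have hJcard : J.card = F.card := by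
    rw [hJ]
    apply card_image_of_injOn
    intro a ha b hb hab
    simp only at hab
    have e1 := (hFmem a (mem_coe.1 ha)).2.2
    have e2 := (hFmem b (mem_coe.1 hb)).2.2
    rw [e1, e2, hab]
  have hJδ : δ * N ≤ J.card := by
    rw [hJcard]
    have h1 : (A.card : ℝ) ≤ ((N / D : ℕ) : ℝ) + 1 + D * D * F.card := by exact_mod_cast hcnt
    have h2 : c * N / 4 ≤ D * D * F.card := by linarith
    rw [hδ, div_mul_eq_mul_div, div_le_iff₀ (by positivity)]
    nlinarith
  have hJN : ∀ x ∈ J, x < 2 * N := by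
    intro x hx
    rw [hJ, mem_image] at hx
    obtain ⟨a, ha, rfl⟩ := hx
    have h1 := hAN a (hFmem a ha).1
    have h2 := Nat.div_le_self a d
    omega
  obtain ⟨M, -, hM⟩ := Pool.Agent.R482.KB.rising_sun J (2 * N) N δ hN1 hδ0 rfl hJN hJδ
  have hMJ : M ∈ J := by
    have h1 := hM 1 le_rfl (by omega)
    have h2 : 0 < ((J.filter (fun x => M ≤ x ∧ x < M + 1)).card : ℝ) := lt_of_lt_of_le (by positivity) h1
    have h3 : 0 < (J.filter (fun x => M ≤ x ∧ x < M + 1)).card := by exact_mod_cast h2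
    obtain ⟨x, hx⟩ := card_pos.1 h3
    rw [mem_filter] at hx
    have : x = M := by omega
    rw [← this]; exact hx.1
  obtain ⟨t, ht⟩ : ∃ t, t = r + d * M := ⟨_, rfl⟩
  have hJt : ∀ j ∈ J, M ≤ j → t + d * (j - M) ∈ A ∧ t + d * (j + 1 - M) ∈ A := by
    intro j hj hMj
    rw [hJ, mem_image] at hj
    obtain ⟨a, ha, rfl⟩ := hj
    obtain ⟨h1, h2, h3⟩ := hFmem a ha
    have e1 : t + d * (a / d - M) = a := by
      rw [ht, h3, ← h3]
      have : d * M + d * (a / d - M) = d * (a / d) := by rw [← Nat.mul_add]; congr 1; omega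
      omega
    have e2 : t + d * (a / d + 1 - M) = a + d := by
      have : a / d + 1 - M = a / d - M + 1 := by omega
      rw [this, Nat.mul_add, Nat.mul_one, ← Nat.add_assoc, e1]
    rw [e1, e2]
    exact ⟨h1, h2⟩
  have htA : t ∈ A := by
    have := (hJt M hMJ le_rfl).1
    simpa using this
  have htdA : t + d * 1 ∈ A := by
    have := (hJt M hMJ le_rfl).2
    simpa using this
  have htN := hAN t htA
  have htc : c * N / 2 < t := by
    rw [hA, mem_filter] at htA
    exact htA.2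
  have ht1 : 1 ≤ t := by
    have : (0 : ℝ) < t := lt_of_le_of_lt (by positivity) htc
    exact_mod_cast this
  -- the set to which the theorem of Schnirelmann is applied
  obtain ⟨B, hB⟩ : ∃ B : ℕ → Prop, B = fun i => t + d * i ∈ A := ⟨_, rfl⟩
  have hB0 : B 0 := by rw [hB]; simpa using htA
  have hB1 : B 1 := by rw [hB]; exact htdA
  have hBcnt : ∀ y ≤ 2 * N - 1, δ / 10 * (y : ℝ) ≤ cnt B y := by
    intro y hy
    rcases Nat.eq_zero_or_pos y with hy0 | hy0
    · subst hy0; rw [cnt_zero]; simp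
    · have hyr : (1 : ℝ) ≤ y := by exact_mod_cast hy0
      have h1 : 1 ≤ cnt B y := by
        unfold cnt
        apply card_pos.2
        exact ⟨1, mem_filter.2 ⟨mem_Icc.2 ⟨le_rfl, hy0⟩, hB1⟩⟩
      have h2 := hM (y + 1) (by omega) (by omega)
      have h3 : (J.filter (fun x => M ≤ x ∧ x < M + (y + 1))).card ≤ cnt B y + 1 := by
        have h4 : J.filter (fun x => M ≤ x ∧ x < M + (y + 1)) ⊆
            insert M ((@Finset.filter ℕ B (fun a => Classical.propDecidable (B a)) (Icc 1 y)).image (fun i => M + i)) := by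
          intro j hj
          rw [mem_filter] at hj
          rw [mem_insert, mem_image]
          rcases Nat.eq_or_lt_of_le hj.2.1 with h5 | h5
          · exact Or.inl h5.symm
          · right
            refine ⟨j - M, ?_, by omega⟩
            refine (@Finset.mem_filter ℕ B (fun a => Classical.propDecidable (B a)) _ _).2 ⟨mem_Icc.2 ⟨by omega, by omega⟩, ?_⟩
            rw [hB]
            exact (hJt j hj.1 hj.2.1).1
        refine (card_le_card h4).trans ((card_insert_le _ _).trans ?_)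
        exact Nat.add_le_add_right card_image_le 1
      have h4 : ((J.filter (fun x => M ≤ x ∧ x < M + (y + 1))).card : ℝ) ≤ cnt B y + 1 := by exact_mod_cast h3
      have h5 : (1 : ℝ) ≤ cnt B y := by exact_mod_cast h1
      push_cast at h2
      by_cases h6 : δ / 5 * ((y : ℝ) + 1) ≤ 2
      · nlinarith
      · nlinarith
  have hsch := schn B (2 * N - 1) h (δ / 10) (by linarith) hhδ hB0 hBcnt
  rw [← hk] at hsch
  have hlift : ∀ y ≤ 2 * N - 1, SumH (fun x => x ∈ A) k (k * t + d * y) := by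
    intro y hy
    apply lift_sum
    have := hsch y hy
    rwa [hB] at this
  have hiter := iter_sum (fun x => x ∈ A) t d k (2 * N - 1) hlift
  have hAT : ∀ a, (fun x => x ∈ A) a → ∃ p q, T p ∧ T q ∧ p + q = a := by
    intro a ha
    change a ∈ A at ha
    rw [hA, mem_filter] at ha
    exact hS a ha.1
  -- a prime of `T` prime to `d`
  obtain ⟨τ, hτT, hτN, hτd⟩ : ∃ τ, T τ ∧ τ ≤ N ∧ Nat.Coprime τ d := by
    obtain ⟨p, q, hp, hq, hpq⟩ := hAT t htA
    have h1 : 4 * D < t := by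
      have : (4 * D : ℝ) < t := by linarith
      exact_mod_cast this
    rcases le_total p q with h2 | h2
    · refine ⟨q, hq, by omega, ?_⟩
      rw [(hT q hq).coprime_iff_not_dvd]
      intro h3
      have := Nat.le_of_dvd (by omega) h3
      omega
    · refine ⟨p, hp, by omega, ?_⟩
      rw [(hT p hp).coprime_iff_not_dvd]
      intro h3
      have := Nat.le_of_dvd (by omega) h3
      omega
  -- the number of the blocks
  have hkt : 0 < k * t := Nat.mul_pos (by omega) (by omega)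
  have hdN : d * N ≤ D * N := Nat.mul_le_mul_right _ hdD.le
  have hKN : D * N + (k + 1) * (k * N) ≤ n := by
    calc D * N + (k + 1) * (k * N) = K * N := by rw [hK]; ring
      _ ≤ n := hn1
  have hktN : k * t ≤ k * N := Nat.mul_le_mul_left _ htN
  obtain ⟨j, hj⟩ : ∃ j, j = (n - d * N) / (k * t) := ⟨_, rfl⟩
  have hj1 : j * (k * t) ≤ n - d * N := by rw [hj]; exact Nat.div_mul_le_self _ _
  have hj2 : n - d * N < (j + 1) * (k * t) := by
    have h1 := Nat.lt_mul_div_succ (n - d * N) hkt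
    rw [← hj] at h1
    calc n - d * N < k * t * (j + 1) := h1
      _ = _ := mul_comm _ _
  have hjk : k + 1 ≤ j := by
    rw [hj, Nat.le_div_iff_mul_le hkt]
    calc (k + 1) * (k * t) ≤ (k + 1) * (k * N) := Nat.mul_le_mul_left _ hktN
      _ ≤ n - d * N := by omega
  -- the number of the copies of `τ`
  haveI : NeZero d := ⟨by omega⟩
  obtain ⟨i, hi⟩ : ∃ i : ℕ, i = (((n - j * (k * t) : ℕ) : ZMod d) * (τ : ZMod d)⁻¹).val := ⟨_, rfl⟩
  have hid : i < d := by rw [hi]; exact ZMod.val_lt _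
  have hiτ : ((i * τ : ℕ) : ZMod d) = ((n - j * (k * t) : ℕ) : ZMod d) := by
    rw [Nat.cast_mul, hi, ZMod.natCast_val, ZMod.cast_id', id, mul_assoc, mul_comm (τ : ZMod d)⁻¹, ZMod.coe_mul_inv_eq_one τ hτd, mul_one]
  have hiτN : i * τ ≤ d * N := Nat.mul_le_mul hid.le hτN
  have hdvd : d ∣ n - j * (k * t) - i * τ := by
    have h1 : i * τ ≡ n - j * (k * t) [MOD d] := (ZMod.natCast_eq_natCast_iff _ _ _).1 hiτ
    exact (Nat.modEq_iff_dvd' (by omega)).1 h1
  obtain ⟨y, hy⟩ := hdvd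
  have hnn : n = i * τ + (j * (k * t) + d * y) := by omega
  have hylt : y ≤ j * (2 * N - 1) := by
    have h1 : d * y ≤ k * t + d * N := by
      have h2 : (j + 1) * (k * t) = j * (k * t) + k * t := by ring
      omega
    have h2 : d * y ≤ d * ((k + 1) * N) := by
      calc d * y ≤ k * N + d * N := by omega
        _ ≤ d * (k * N) + d * N := Nat.add_le_add_right (Nat.le_mul_of_pos_left _ (by omega)) _
        _ = d * ((k + 1) * N) := by ring
    have h3 : y ≤ (k + 1) * N := Nat.le_of_mul_le_mul_left h2 (by omega)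
    calc y ≤ (k + 1) * N := h3
      _ ≤ j * (2 * N - 1) := Nat.mul_le_mul hjk (by omega)
  have hsum := two_sum (fun x => x ∈ A) T hAT _ _ (hiter j y hylt)
  obtain ⟨l, hl1, hl2, hl3⟩ := hsum
  have hjb : j ≤ jm := by
    have h1 : (j : ℝ) * (k * t) ≤ n := by
      have : j * (k * t) ≤ n := by omega
      exact_mod_cast this
    have h2 : (n : ℝ) ≤ K * (N + 1) := by exact_mod_cast hn2.le
    have hk1r : (1 : ℝ) ≤ k := by exact_mod_cast hk1
    have hK0 : (0 : ℝ) < K := by exact_mod_cast hK1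
    have h3 : (j : ℝ) * (c * N / 2) ≤ 2 * K * N := by
      calc (j : ℝ) * (c * N / 2) ≤ j * (k * t) := by
            apply mul_le_mul_of_nonneg_left _ (Nat.cast_nonneg j)
            have h4 : (t : ℝ) ≤ k * t := by
              have : (0 : ℝ) ≤ t := Nat.cast_nonneg t
              nlinarith
            linarith
        _ ≤ n := h1
        _ ≤ K * (N + 1) := h2
        _ ≤ 2 * K * N := by nlinarith
    have h4 : (j : ℝ) ≤ 4 * K / c := by
      rw [le_div_iff₀ hc]
      have hN0 : (0 : ℝ) < N := by linarith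
      have h5 : (j * c) * N ≤ (4 * K) * N := by nlinarith
      exact le_of_mul_le_mul_right h5 hN0
    have h5 : (j : ℝ) ≤ jm := by
      rw [hjm]
      exact h4.trans (Nat.le_ceil _)
    exact_mod_cast h5
  refine ⟨List.replicate i τ ++ l, ?_, ?_, ?_⟩
  · rw [List.length_append, List.length_replicate, hl1]
    have : j * k ≤ jm * k := Nat.mul_le_mul_right _ hjb
    omega
  · intro x hx
    rw [List.mem_append] at hx
    rcases hx with hx | hx
    · rw [List.eq_of_mem_replicate hx]; exact hτT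
    · exact hl2 x hx
  · rw [List.sum_append, List.sum_replicate, smul_eq_mul, hl3, ← hnn]

end Pool.Agent.L0h42.BS
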