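import Mathlib
import Pool.Agent.TH882.D5
import Pool.Agent.L0h42.BS.A2

/-! Bounded sums of primes which start a common pattern. -/

set_option autoImplicit false
set_option linter.unusedSectionVars false

namespace Pool.Agent.L0h42.BS
open Finset Filter
open Pool.Agent.TH882.DD

lemma GP_prime {S : Finset ℤ} {r : ℕ} {D : Finset ℕ} {p : ℕ} (h : GP S r D p) : p.Prime := by
  have := (h 0 (mem_insert_self _ _)).1
  simpa using this

theorem pattern_basis (S : Finset ℤ) (hS : Adm S) (m : ℕ) : ∃ s r C : ℕ, ∀ᶠ n : ℕ in atTop, ∃ D : Finset ℕ, D ⊆ Icc 1 C ∧ D.card = m ∧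
    ∃ l : List ℕ, l.length ≤ s ∧ (∀ p ∈ l, GP S r D p) ∧ l.sum = n := by
  classical
  obtain ⟨r, C, E, c, hc, x₀, h⟩ := fin S hS m
  obtain ⟨c', hc'⟩ : ∃ c' : ℝ, c' = min (c / 2) 1 := ⟨_, rfl⟩
  have hc'0 : 0 < c' := by rw [hc']; positivity
  have hc'1 : c' ≤ 1 := by rw [hc']; exact min_le_right _ _
  have hc'c : c' ≤ c / 2 := by rw [hc']; exact min_le_left _ _
  obtain ⟨s, K, N0, hK, hmain⟩ := one_scale c' hc'0 hc'1
  refine ⟨s, r, C, ?_⟩
  rw [eventually_atTop]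
  refine ⟨K * (N0 + x₀ + ⌈4 / c⌉₊ + 1), fun n hn => ?_⟩
  obtain ⟨N, hN⟩ : ∃ N, N = n / K := ⟨_, rfl⟩
  have hN1 : N0 + x₀ + ⌈4 / c⌉₊ + 1 ≤ N := by
    rw [hN, Nat.le_div_iff_mul_le (by omega), mul_comm]
    exact hn
  have hKN : K * N ≤ n := by rw [hN]; exact Nat.mul_div_le _ _
  have hKN2 : n < K * (N + 1) := by rw [hN]; exact Nat.lt_mul_div_succ _ (by omega)
  obtain ⟨D, hD1, hD2, hD3⟩ := h N (by omega)
  refine ⟨D, hD1, hD2, ?_⟩
  have hNc : 4 ≤ c * N := by
    have h1 : 4 / c ≤ N := (Nat.le_ceil _).trans (by exact_mod_cast (show ⌈4 / c⌉₊ ≤ N by omega))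
    rw [div_le_iff₀ hc] at h1
    linarith
  obtain ⟨S', hS'⟩ : ∃ S' : Finset ℕ, S' = ((range N).filter (fun N : ℕ => (N : ℝ) / Real.log N ^ E ≤ ((Rp S r D N).card : ℝ))).filter
    (fun x => 2 ≤ x) := ⟨_, rfl⟩
  apply hmain N (by omega) (GP S r D) (fun p hp => GP_prime hp) S' ?_ ?_ ?_ n hKN hKN2
  · intro x hx
    rw [hS', mem_filter, mem_filter, mem_range] at hx
    rw [mem_Icc]
    omega
  · intro x hx
    rw [hS', mem_filter, mem_filter] at hx
    have h1 := hx.1.2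
    have h2 : (2 : ℝ) ≤ x := by exact_mod_cast hx.2
    have h3 : 0 < Real.log x := Real.log_pos (by linarith)
    have h4 : 0 < (x : ℝ) / Real.log x ^ E := by positivity
    have h5 : 0 < (Rp S r D x).card := by
      have : (0 : ℝ) < ((Rp S r D x).card : ℝ) := lt_of_lt_of_le h4 h1
      exact_mod_cast this
    obtain ⟨p, hp⟩ := card_pos.1 h5
    unfold Rp at hp
    rw [mem_filter, mem_range] at hp
    exact ⟨p, x - p, hp.2.1, hp.2.2, by omega⟩
  · have h1 : ((range N).filter (fun N : ℕ => (N : ℝ) / Real.log N ^ E ≤ ((Rp S r D N).card : ℝ))).card ≤ S'.card + 2 := by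
      have h2 : (range N).filter (fun N : ℕ => (N : ℝ) / Real.log N ^ E ≤ ((Rp S r D N).card : ℝ)) ⊆ S' ∪ range 2 := by
        intro x hx
        rw [mem_union, hS', mem_filter, mem_range]
        by_cases h3 : 2 ≤ x
        · exact Or.inl ⟨hx, h3⟩
        · exact Or.inr (by omega)
      refine (card_le_card h2).trans ((card_union_le _ _).trans ?_)
      rw [card_range]
    have h2 : (((range N).filter (fun N : ℕ => (N : ℝ) / Real.log N ^ E ≤ ((Rp S r D N).card : ℝ))).card : ℝ) ≤ S'.card + 2 := by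
      exact_mod_cast h1
    have hN0 : (0 : ℝ) ≤ N := Nat.cast_nonneg _
    nlinarith

end Pool.Agent.L0h42.BS
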